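import Mathlib
import Pool.Agent.H27.PCFinal

set_option autoImplicit false

/-!
# Right-to-left minima on permutations avoiding the vincular pattern 23-1-4, zeros of inversion
sequences avoiding 110, and their common recurrence
-/

namespace Pool.Agent.Results.MP_80f2b6_co.SameRecurrence

/-- the set `[n] = {1, ..., n}` -/
abbrev Ind (n : ℕ) : Type := ↥(Finset.Icc 1 n)

/-- The indices `i < j < k` with `j > i + 1` form an occurrence of the vincular pattern 23-1-4 in the
permutation `π` of `[n]`: `π j < π i < π (i+1) < π k`. -/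
def Occurrence {n : ℕ} (π : Equiv.Perm (Ind n)) (i j k : Ind n) : Prop :=
  i < j ∧ j < k ∧ (i : ℕ) + 1 < (j : ℕ) ∧
    ∃ i' : Ind n, (i' : ℕ) = (i : ℕ) + 1 ∧ π j < π i ∧ π i < π i' ∧ π i' < π k

/-- the index `i` is a right-to-left minimum of `π` -/
def IsRightToLeftMin {n : ℕ} (π : Equiv.Perm (Ind n)) (i : Ind n) : Prop :=
  ∀ j : Ind n, i < j → π i < π j

open Classical in
/-- the number of right-to-left minima of `π` -/
noncomputable def rmin {n : ℕ} (π : Equiv.Perm (Ind n)) : ℕ :=
  (Finset.univ.filter fun i : Ind n => IsRightToLeftMin π i).card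

open Classical in
/-- the permutations of `[n]` without occurrence of 23-1-4 and with `k` right-to-left minima -/
noncomputable def permutations (n k : ℕ) : Finset (Equiv.Perm (Ind n)) :=
  Finset.univ.filter fun π => (∀ i j k : Ind n, ¬ Occurrence π i j k) ∧ rmin π = k

/-- the inversion sequences of length `n`: the words `e` with `0 ≤ e i < i` for `i` in `[n]` -/
def inversionSequences (n : ℕ) : Finset (Ind n → ℕ) :=
  Fintype.piFinset fun i : Ind n => Finset.range (i : ℕ)

/-- the number of zeros of `e` -/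
def zero {n : ℕ} (e : Ind n → ℕ) : ℕ := (Finset.univ.filter fun i : Ind n => e i = 0).card

open Classical in
/-- the inversion sequences of length `n` which avoid 110 and have `k` zeros -/
noncomputable def sequences (n k : ℕ) : Finset (Ind n → ℕ) :=
  (inversionSequences n).filter fun e =>
    (¬ ∃ i j k : Ind n, i < j ∧ j < k ∧ e i = e j ∧ e j > e k) ∧ zero e = k

/-- the numbers with `a 0 0 = 1`, `a 0 k = 0` for `k > 0`, `a (n+1) 0 = 0` and
`a (n+1) k = a n (k-1) + k * (a n k + a n (k+1) + ... + a n n)` for `k > 0` -/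
def a : ℕ → ℕ → ℕ
  | 0, k => if k = 0 then 1 else 0
  | n + 1, k => if k = 0 then 0 else a n (k - 1) + k * ∑ j ∈ Finset.Icc k n, a n j

/-- the order isomorphism from `{0, ..., n-1}` to `[n]` -/
private def sh (n : ℕ) : Fin n ≃ Ind n where
  toFun i := ⟨(i : ℕ) + 1, by rw [Finset.mem_Icc]; omega⟩
  invFun i := ⟨(i : ℕ) - 1, by have := Finset.mem_Icc.mp i.2; omega⟩
  left_inv i := by ext; simp
  right_inv i := by
    ext
    have := Finset.mem_Icc.mp i.2
    simp only
    omega

private theorem sh_val {n : ℕ} (i : Fin n) : ((sh n i : Ind n) : ℕ) = (i : ℕ) + 1 := rfl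

private theorem sh_lt {n : ℕ} (i j : Fin n) : sh n i < sh n j ↔ i < j := by
  rw [← Subtype.coe_lt_coe, sh_val, sh_val, Fin.lt_def]
  omega

private theorem permCongr_sh {n : ℕ} (π : Equiv.Perm (Fin n)) (i : Fin n) :
    (sh n).permCongr π (sh n i) = sh n (π i) := by
  rw [Equiv.permCongr_apply, Equiv.symm_apply_apply]

private theorem rmin_sh {n : ℕ} (π : Equiv.Perm (Fin n)) :
    rmin ((sh n).permCongr π) = Nat.card {i : Fin n // ∀ j : Fin n, i < j → π i < π j} := by
  classical
  unfold rmin
  rw [← Fintype.card_subtype, ← Nat.card_eq_fintype_card]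
  symm
  refine Nat.card_congr ((sh n).subtypeEquiv fun i => ?_)
  unfold IsRightToLeftMin
  constructor
  · intro h j hj
    obtain ⟨j, rfl⟩ := (sh n).surjective j
    rw [permCongr_sh, permCongr_sh, sh_lt]
    exact h j ((sh_lt i j).mp hj)
  · intro h j hj
    have := h (sh n j) ((sh_lt i j).mpr hj)
    rwa [permCongr_sh, permCongr_sh, sh_lt] at this

private theorem occ_sh {n : ℕ} (π : Equiv.Perm (Fin n)) :
    (∀ i j k : Ind n, ¬ Occurrence ((sh n).permCongr π) i j k) ↔
      ¬ ∃ i i' j l : Fin n, i'.val = i.val + 1 ∧ i' < j ∧ j < l ∧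
            π j < π i ∧ π i < π i' ∧ π i' < π l := by
  constructor
  · rintro h ⟨i, i', j, l, h1, h2, h3, h4, h5, h6⟩
    apply h (sh n i) (sh n j) (sh n l)
    have h2' : (i' : ℕ) < j := h2
    refine ⟨?_, (sh_lt _ _).mpr h3, ?_, sh n i', ?_, ?_, ?_, ?_⟩
    · rw [sh_lt, Fin.lt_def]
      omega
    · rw [sh_val, sh_val]
      omega
    · rw [sh_val, sh_val]
      omega
    · rw [permCongr_sh, permCongr_sh, sh_lt]
      exact h4
    · rw [permCongr_sh, permCongr_sh, sh_lt]
      exact h5
    · rw [permCongr_sh, permCongr_sh, sh_lt]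
      exact h6
  · rintro h i j k ⟨h1, h2, h3, i', h4, h5, h6, h7⟩
    obtain ⟨i, rfl⟩ := (sh n).surjective i
    obtain ⟨j, rfl⟩ := (sh n).surjective j
    obtain ⟨k, rfl⟩ := (sh n).surjective k
    obtain ⟨i', rfl⟩ := (sh n).surjective i'
    rw [sh_val, sh_val] at h3 h4
    rw [permCongr_sh, permCongr_sh, sh_lt] at h5 h6 h7
    refine h ⟨i, i', j, k, by omega, ?_, (sh_lt _ _).mp h2, h5, h6, h7⟩
    rw [Fin.lt_def]
    omega

private theorem card_permutations (n k : ℕ) :
    ((permutations n k).card : ℤ) = (Pool.Agent.H27.PC.Cn n).coeff k := by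
  classical
  rw [← Pool.Agent.H27.PC.rpn_eq_Cn, ← Pool.Agent.H27.PC.perm_side]
  norm_cast
  unfold permutations
  rw [← Fintype.card_subtype, ← Nat.card_eq_fintype_card]
  symm
  refine Nat.card_congr ((sh n).permCongr.subtypeEquiv fun π => ?_)
  rw [occ_sh, rmin_sh]

private theorem card_sequences (n k : ℕ) :
    ((sequences n k).card : ℤ) = (Pool.Agent.H27.PC.Cn n).coeff k := by
  classical
  rw [← Pool.Agent.H27.PC.ipn_eq_Cn, ← Pool.Agent.H27.PC.inv_side]
  norm_cast
  rw [← Fintype.card_coe, ← Nat.card_eq_fintype_card]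
  symm
  refine Nat.card_congr (Equiv.ofBijective
    (fun e => ⟨fun i => (e.1 ((sh n).symm i) : ℕ), ?_⟩) ⟨?_, ?_⟩)
  · unfold sequences
    rw [Finset.mem_filter]
    obtain ⟨h1, h2, h3⟩ := e.2
    refine ⟨?_, ?_, ?_⟩
    · unfold inversionSequences
      rw [Fintype.mem_piFinset]
      intro i
      obtain ⟨i, rfl⟩ := (sh n).surjective i
      rw [Finset.mem_range, sh_val, Equiv.symm_apply_apply]
      have := h1 i
      omega
    · rintro ⟨i, j, l, h4, h5, h6, h7⟩
      obtain ⟨i, rfl⟩ := (sh n).surjective i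
      obtain ⟨j, rfl⟩ := (sh n).surjective j
      obtain ⟨l, rfl⟩ := (sh n).surjective l
      simp only [Equiv.symm_apply_apply] at h6 h7
      exact h2 ⟨i, j, l, (sh_lt _ _).mp h4, (sh_lt _ _).mp h5, Fin.ext h6, h7⟩
    · refine Eq.trans ?_ h3
      unfold zero
      rw [← Fintype.card_subtype, ← Nat.card_eq_fintype_card]
      symm
      refine Nat.card_congr ((sh n).subtypeEquiv fun i => ?_)
      show ((e.1 i : Fin n) : ℕ) = 0 ↔ ((e.1 ((sh n).symm (sh n i)) : Fin n) : ℕ) = 0
      rw [Equiv.symm_apply_apply]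
  · intro e f h
    have h' := congrArg Subtype.val h
    apply Subtype.ext
    funext i
    have h2 := congrFun h' (sh n i)
    simp only [Equiv.symm_apply_apply] at h2
    exact Fin.ext h2
  · rintro ⟨w, hw⟩
    unfold sequences at hw
    rw [Finset.mem_filter] at hw
    obtain ⟨h1, h2, h3⟩ := hw
    unfold inversionSequences at h1
    rw [Fintype.mem_piFinset] at h1
    have hlt : ∀ i : Fin n, w (sh n i) < n := by
      intro i
      have h4 := Finset.mem_range.mp (h1 (sh n i))
      rw [sh_val] at h4
      have := i.isLt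
      omega
    refine ⟨⟨fun i => ⟨w (sh n i), hlt i⟩, ?_, ?_, ?_⟩, ?_⟩
    · intro i
      have h4 := Finset.mem_range.mp (h1 (sh n i))
      rw [sh_val] at h4
      show w (sh n i) ≤ (i : ℕ)
      omega
    · rintro ⟨i, j, l, h4, h5, h6, h7⟩
      exact h2 ⟨sh n i, sh n j, sh n l, (sh_lt _ _).mpr h4, (sh_lt _ _).mpr h5,
        congrArg Fin.val h6, h7⟩
    · refine Eq.trans ?_ h3
      unfold zero
      rw [← Fintype.card_subtype, ← Nat.card_eq_fintype_card]
      exact Nat.card_congr ((sh n).subtypeEquiv fun i => Iff.rfl)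
    · apply Subtype.ext
      funext i
      simp only [Equiv.apply_symm_apply]

private theorem a_zero_of_lt (n : ℕ) : ∀ k, n < k → a n k = 0 := by
  induction n with
  | zero =>
    intro k hk
    rw [a, if_neg (by omega)]
  | succ n ih =>
    intro k hk
    rw [a, if_neg (by omega), ih (k - 1) (by omega), Finset.Icc_eq_empty (by omega)]
    simp

open Polynomial in
private theorem Cn_eq (n : ℕ) :
    Pool.Agent.H27.PC.Cn n = ∑ k ∈ Finset.range (n + 1), (a n k : ℤ) • (X : ℤ[X]) ^ k := by
  induction n with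
  | zero =>
    rw [Pool.Agent.H27.PC.Cn]
    simp [a]
  | succ n ih =>
    rw [Pool.Agent.H27.PC.Cn, ih, map_sum]
    ext m
    rw [Polynomial.finsetSum_coeff, Polynomial.finsetSum_coeff]
    have hl : ∀ k ∈ Finset.range (n + 1),
        (Pool.Agent.H27.PC.T ((a n k : ℤ) • (X : ℤ[X]) ^ k)).coeff m =
          (if m = k + 1 then (a n k : ℤ) else 0) + (if m ≤ k then (m : ℤ) * (a n k : ℤ) else 0) := by
      intro k _
      rw [map_smul, Pool.Agent.H27.PC.T_pow, Polynomial.coeff_smul, Polynomial.coeff_add,
        Polynomial.coeff_X_pow, Polynomial.finsetSum_coeff]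
      have h2 : ∀ i ∈ Finset.range (k + 1), ((i : ℤ[X]) * X ^ i).coeff m =
          if i = m then (m : ℤ) else 0 := by
        intro i _
        rw [← Polynomial.C_eq_natCast, Polynomial.coeff_C_mul, Polynomial.coeff_X_pow]
        by_cases h : m = i
        · subst h
          simp
        · rw [if_neg h, if_neg (fun h' => h h'.symm), mul_zero]
      rw [Finset.sum_congr rfl h2, Finset.sum_ite_eq']
      simp only [Finset.mem_range, Nat.lt_succ_iff, smul_eq_mul]
      split_ifs <;> ring
    have hr : ∀ k ∈ Finset.range (n + 1 + 1), ((a (n + 1) k : ℤ) • (X : ℤ[X]) ^ k).coeff m =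
        if k = m then (a (n + 1) m : ℤ) else 0 := by
      intro k _
      rw [Polynomial.coeff_smul, Polynomial.coeff_X_pow]
      by_cases h : m = k
      · subst h
        simp
      · rw [if_neg h, if_neg (fun h' => h h'.symm), smul_zero]
    rw [Finset.sum_congr rfl hl, Finset.sum_congr rfl hr, Finset.sum_ite_eq', Finset.sum_add_distrib]
    have e1 : ∑ k ∈ Finset.range (n + 1), (if m = k + 1 then (a n k : ℤ) else 0) =
        if m = 0 then 0 else (a n (m - 1) : ℤ) := by
      rcases Nat.eq_zero_or_pos m with h0 | h0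
      · subst h0
        simp
      · obtain ⟨j, rfl⟩ : ∃ j, m = j + 1 := ⟨m - 1, by omega⟩
        rw [if_neg (by omega), Nat.add_sub_cancel]
        have : ∀ k ∈ Finset.range (n + 1), (if j + 1 = k + 1 then (a n k : ℤ) else 0) =
            if k = j then (a n j : ℤ) else 0 := by
          intro k _
          by_cases h : k = j
          · subst h
            simp
          · rw [if_neg (by omega), if_neg h]
        rw [Finset.sum_congr rfl this, Finset.sum_ite_eq']
        by_cases hj : j ∈ Finset.range (n + 1)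
        · rw [if_pos hj]
        · rw [if_neg hj]
          rw [Finset.mem_range] at hj
          rw [a_zero_of_lt n j (by omega)]
          simp
    have e2 : ∑ k ∈ Finset.range (n + 1), (if m ≤ k then (m : ℤ) * (a n k : ℤ) else 0) =
        (m : ℤ) * ∑ j ∈ Finset.Icc m n, (a n j : ℤ) := by
      rw [← Finset.sum_filter, ← Finset.mul_sum]
      congr 1
      apply Finset.sum_congr _ fun _ _ => rfl
      ext j
      rw [Finset.mem_filter, Finset.mem_range, Finset.mem_Icc]
      omega
    rw [e1, e2]
    have e3 : (a (n + 1) m : ℤ) = (if m = 0 then 0 else (a n (m - 1) : ℤ)) +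
        (m : ℤ) * ∑ j ∈ Finset.Icc m n, (a n j : ℤ) := by
      rw [a]
      by_cases h : m = 0
      · subst h
        simp
      · rw [if_neg h, if_neg h]
        push_cast
        rfl
    rw [← e3]
    by_cases hm : m ∈ Finset.range (n + 1 + 1)
    · rw [if_pos hm]
    · rw [if_neg hm]
      rw [Finset.mem_range] at hm
      rw [a_zero_of_lt (n + 1) m (by omega)]
      rfl

private theorem Cn_coeff (n k : ℕ) : (Pool.Agent.H27.PC.Cn n).coeff k = (a n k : ℤ) := by
  rw [Cn_eq, Polynomial.finsetSum_coeff]
  have hr : ∀ j ∈ Finset.range (n + 1), ((a n j : ℤ) • (Polynomial.X : Polynomial ℤ) ^ j).coeff k =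
      if j = k then (a n k : ℤ) else 0 := by
    intro j _
    rw [Polynomial.coeff_smul, Polynomial.coeff_X_pow]
    by_cases h : k = j
    · subst h
      simp
    · rw [if_neg h, if_neg (fun h' => h h'.symm), smul_zero]
  rw [Finset.sum_congr rfl hr, Finset.sum_ite_eq']
  by_cases hk : k ∈ Finset.range (n + 1)
  · rw [if_pos hk]
  · rw [if_neg hk]
    rw [Finset.mem_range] at hk
    rw [a_zero_of_lt n k (by omega)]
    rfl

/-- **For all `n` and `k`, as many permutations of `[n]` avoiding the vincular pattern 23-1-4 have `k`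
right-to-left minima as inversion sequences of length `n` avoiding 110 have `k` zeros**, and the
common number is `a n k`. -/
theorem result (n k : ℕ) :
    (permutations n k).card = (sequences n k).card ∧ (sequences n k).card = a n k := by
  have h1 := card_permutations n k
  have h2 := card_sequences n k
  have h3 := Cn_coeff n k
  constructor
  · exact_mod_cast h1.trans h2.symm
  · exact_mod_cast h2.trans h3

end Pool.Agent.Results.MP_80f2b6_co.SameRecurrence
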